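import Pool.Agent.Q253.Line.Main

/-!
# MP_0da313_nt: admissible families on every line `x + y = n`: one linear member prime, all others
almost prime, with the expected order of magnitude

Let `f_1, ..., f_m ∈ ℤ[x, y]` be an admissible family in the sense of the problem, `D` the sum of the
total degrees, `ρ_n(p)` the number of residues `x` modulo `p` with `p ∣ ∏ f_k(x, n - x)`, and
`V_n = ∏_{p ≤ n} (1 - ρ_n(p) / p)`; the heuristics behind the problem predict that the number of the
`x` in question is of the order `n V_n`. There is an absolute constant `K` such that for every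
admissible family there are `c > 0`, `C` and `N` such that for EVERY `n ≥ N`:

* `V_n ≥ c / (log n) ^ D`;
* the number of the `0 < x < n` such that all prime factors of all `f_k(x, n - x)` are larger than
  `n ^ (1 / (K (D + 1)))` is between `c n V_n` and `C n V_n`, and for these `x` the numbers
  `|f_k(x, n - x)|` have at most `K (D + 1) deg f_k` prime factors, counted with multiplicity;
* the number of the `0 < x < n` for which all `|f_k(x, n - x)|` are prime is at most `C n V_n`;
* for every member `f_j` of degree one there are at least `c n V_n` numbers `x` as in the second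
  statement for which moreover `|f_j(x, n - x)|` is prime.
-/

set_option autoImplicit false

open Finset Polynomial

namespace Pool.Agent.Results.MP_0da313_nt.EveryLine

/-- the value `f(x, y)` -/
noncomputable def val (f : MvPolynomial (Fin 2) ℤ) (x y : ℤ) : ℤ := MvPolynomial.eval ![x, y] f

/-- the polynomial `g(x) = f(x, n - x)` in `ℤ[x]` -/
noncomputable def onLine (f : MvPolynomial (Fin 2) ℤ) (n : ℕ) : ℤ[X] :=
  MvPolynomial.aeval ![(X : ℤ[X]), C (n : ℤ) - X] f

/-- admissible families: for all large `n` the polynomials `f_k(x, n - x)` are irreducible in `ℤ[x]`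
and no prime divides all values of their product -/
def Admissible {m : ℕ} (f : Fin m → MvPolynomial (Fin 2) ℤ) : Prop :=
  ∃ N₀ : ℕ, ∀ n : ℕ, N₀ ≤ n →
    (∀ k, Irreducible (onLine (f k) n)) ∧
    ∀ p : ℕ, p.Prime → ¬ ∀ x : ℤ, (p : ℤ) ∣ ∏ k, (onLine (f k) n).eval x

/-- `D`, the sum of the total degrees -/
noncomputable def deg {m : ℕ} (f : Fin m → MvPolynomial (Fin 2) ℤ) : ℕ := ∑ k, (f k).totalDegree

/-- `ρ_n(p)`, the number of residue classes `x` modulo `p` with `p ∣ ∏ f_k(x, n - x)` -/
noncomputable def rho {m : ℕ} (f : Fin m → MvPolynomial (Fin 2) ℤ) (n p : ℕ) : ℕ :=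
  ((range p).filter (fun x : ℕ => (p : ℤ) ∣ ∏ k, (onLine (f k) n).eval (x : ℤ))).card

/-- `V_n`, the product of the `1 - ρ_n(p) / p` over the primes `p ≤ n` -/
noncomputable def V {m : ℕ} (f : Fin m → MvPolynomial (Fin 2) ℤ) (n : ℕ) : ℝ :=
  ∏ p ∈ (Icc 1 n).filter Nat.Prime, (1 - (rho f n p : ℝ) / p)

open Classical in
/-- the `0 < x < n` such that no prime `p ≤ n ^ (1 / (K (D + 1)))` divides one of the numbers
`f_k(x, n - x)` -/
noncomputable def almost {m : ℕ} (f : Fin m → MvPolynomial (Fin 2) ℤ) (K n : ℕ) : Finset ℕ :=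
  (Ioo 0 n).filter (fun x : ℕ => ∀ k, ∀ p : ℕ, p.Prime → p ^ (K * (deg f + 1)) ≤ n →
    ¬ (p : ℤ) ∣ val (f k) x (n - x))

open Classical in
/-- the `0 < x < n` for which all `|f_k(x, n - x)|` are prime: the `x` of the question -/
noncomputable def allPrime {m : ℕ} (f : Fin m → MvPolynomial (Fin 2) ℤ) (n : ℕ) : Finset ℕ :=
  (Ioo 0 n).filter (fun x : ℕ => ∀ k, (val (f k) x (n - x)).natAbs.Prime)

/-- the elements of `almost` at which `|f_j(x, n - x)|` is prime -/
noncomputable def primeAt {m : ℕ} (f : Fin m → MvPolynomial (Fin 2) ℤ) (K n : ℕ) (j : Fin m) : Finset ℕ :=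
  (almost f K n).filter (fun x : ℕ => (val (f j) x (n - x)).natAbs.Prime)

theorem result : ∃ K : ℕ, ∀ (m : ℕ) (f : Fin m → MvPolynomial (Fin 2) ℤ), Admissible f →
    ∃ (c C₀ : ℝ) (N : ℕ), 0 < c ∧ ∀ n : ℕ, N ≤ n →
      c / Real.log n ^ deg f ≤ V f n ∧
      c * (n * V f n) ≤ ((almost f K n).card : ℝ) ∧
      ((almost f K n).card : ℝ) ≤ C₀ * (n * V f n) ∧
      (∀ x ∈ almost f K n, ∀ k, val (f k) x (n - x) ≠ 0 ∧
        ArithmeticFunction.cardFactors (val (f k) x (n - x)).natAbs ≤
          K * (deg f + 1) * (f k).totalDegree) ∧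
      ((allPrime f n).card : ℝ) ≤ C₀ * (n * V f n) ∧
      ∀ j, (∃ a b c' : ℤ, f j = MvPolynomial.C a * MvPolynomial.X 0 + MvPolynomial.C b * MvPolynomial.X 1 +
        MvPolynomial.C c') → c * (n * V f n) ≤ ((primeAt f K n j).card : ℝ) :=
  Pool.Agent.Q253.Line.main

end Pool.Agent.Results.MP_0da313_nt.EveryLine
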