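import Pool.Agent.Q236.MF.Fam

set_option autoImplicit false

/-!
# Prime values on all the lines `x + y = n` at the same time, for almost all families

Let `g_i(x, y) = f_i(x, y) + c_{i0} + c_{i1} x + … + c_{i,d-1} x^(d-1)`, `i = 1, …, m`, with ARBITRARY `f_i ∈ ℤ[x, y]` of
bounded degree and `m ≤ log^E X`, where the coefficients `c_{ij}` run independently through the integers of intervals
of length at least `X / log^C X` such that all the values `g_i(x, y)`, `x, y ≥ 1`, `x + y ≤ log^E X`, have the size `X`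
up to `log^C X`.

If the number `d` of the random coefficients is large enough in terms of `N, B, E, η`, then for all but a proportion
`log^(-B) X` of the families the following holds AT THE SAME TIME for EVERY `n ≤ log^E X`, for all subfamilies `J` of at
most `N` members, and for all sets `x = b + q k`, `a < k ≤ a + h`, with `b + q (a + h) < n` and
`h ≥ log^(|J| + η) X` (for `b = a = 0`, `q = 1`, `h = n - 1` this is the whole line, so that `n` can be as small as
`1 + log^(|J| + η) X`):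

* the number of these `x` such that ALL the `g_i(x, n - x)`, `i ∈ J`, are PRIME is `(1 + O*(ε)) 𝔖 h / log^|J| X`,
  with the singular series `𝔖` of the system of the polynomials `g_i(x, n - x)` (the primes up to `z`);
* in particular there is such an `x` if this system has no fixed prime divisor `≤ z`.
-/

namespace Pool.Agent.Results.MP_0da313_nt.EveryLineAlmostEveryFamily

open Finset Filter

/-- The value at `(x, y)` of `f + c_0 + c_1 x + … + c_{d-1} x^(d-1)`. -/
noncomputable def value {d : ℕ} (f : MvPolynomial (Fin 2) ℤ) (c : Fin d → ℤ) (x y : ℤ) : ℤ :=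
  MvPolynomial.eval ![x, y] f + ∑ j, c j * x ^ (j : ℕ)

/-- The arrays of coefficients `Z i j < c i j ≤ Z i j + Y i j`. -/
noncomputable def Arrays {m d : ℕ} (Z : Fin m → Fin d → ℤ) (Y : Fin m → Fin d → ℕ) : Finset (Fin m → Fin d → ℤ) :=
  Fintype.piFinset fun i => Fintype.piFinset fun j => Ioc (Z i j) (Z i j + Y i j)

/-- The sizes: intervals of length at least `X / log^C X` for the coefficients, and values between `X / log^C X` and
`X log^C X` at all `(x, y)` with `x, y ≥ 1` and `x + y ≤ log^E X`. -/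
structure Sizes (C E X : ℕ) {m d : ℕ} (f : Fin m → MvPolynomial (Fin 2) ℤ) (Z : Fin m → Fin d → ℤ)
    (Y : Fin m → Fin d → ℕ) : Prop where
  side : ∀ i j, (X : ℝ) / Real.log X ^ C ≤ Y i j
  values : ∀ c ∈ Arrays Z Y, ∀ i, ∀ x y : ℕ, 1 ≤ x → 1 ≤ y → ((x + y : ℕ) : ℝ) ≤ Real.log X ^ E →
    (X : ℝ) / Real.log X ^ C ≤ value (f i) (c i) x y ∧ (value (f i) (c i) x y : ℝ) ≤ X * Real.log X ^ C

open Classical in
/-- The number of the `x = b + q k`, `a < k ≤ a + h`, such that all the `g_i(x, n - x)`, `i ∈ J`, are primes. -/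
noncomputable def primePoints {m d : ℕ} (f : Fin m → MvPolynomial (Fin 2) ℤ) (c : Fin m → Fin d → ℤ)
    (J : Finset (Fin m)) (n b q a h : ℕ) : ℕ :=
  ((Ioc a (a + h)).filter (fun k => ∀ i ∈ J,
    (value (f i) (c i) ((b + q * k : ℕ) : ℤ) ((n : ℤ) - ((b + q * k : ℕ) : ℤ))).toNat.Prime)).card

open Classical in
/-- The number of the residues `k` modulo `p` such that `p` divides one of the `g_i(x, n - x)`, `x = b + q k`,
`i ∈ J`. -/
noncomputable def omega {m d : ℕ} (f : Fin m → MvPolynomial (Fin 2) ℤ) (c : Fin m → Fin d → ℤ)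
    (J : Finset (Fin m)) (n b q p : ℕ) : ℕ :=
  ((range p).filter (fun k => ∃ i ∈ J,
    (p : ℤ) ∣ value (f i) (c i) ((b + q * k : ℕ) : ℤ) ((n : ℤ) - ((b + q * k : ℕ) : ℤ)))).card

/-- The singular series: the product of `(1 - ω(p) / p) / (1 - 1 / p)^|J|` over the primes `p ≤ z`. -/
noncomputable def singular {m d : ℕ} (f : Fin m → MvPolynomial (Fin 2) ℤ) (c : Fin m → Fin d → ℤ)
    (J : Finset (Fin m)) (n b q z : ℕ) : ℝ :=
  ∏ p ∈ (Icc 1 z).filter Nat.Prime, ((1 - (omega f c J n b q p : ℝ) / p) / (1 - 1 / (p : ℝ)) ^ J.card)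

/-- The expected formula holds for all `n ≤ log^E X`, all subfamilies of at most `N` members and all segments of
progressions with at least `log^(|J| + η)` terms. -/
def Regular (N E : ℕ) (η ε : ℝ) (z X : ℕ) {m d : ℕ} (f : Fin m → MvPolynomial (Fin 2) ℤ) (c : Fin m → Fin d → ℤ) :
    Prop :=
  ∀ n : ℕ, (n : ℝ) ≤ Real.log X ^ E → ∀ J : Finset (Fin m), 1 ≤ J.card → J.card ≤ N → ∀ b q a h : ℕ, 1 ≤ q →
    b + q * (a + h) < n → Real.log X ^ ((J.card : ℝ) + η) ≤ h →
    -- the number of the prime points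
    |(primePoints f c J n b q a h : ℝ) - singular f c J n b q z * (h / Real.log X ^ J.card)| ≤
      ε * (singular f c J n b q z * (h / Real.log X ^ J.card)) ∧
    -- without a fixed prime divisor there is one
    ((∀ p : ℕ, p.Prime → p ≤ z → ∃ k : ℕ, ∀ i ∈ J,
        ¬ (p : ℤ) ∣ value (f i) (c i) ((b + q * k : ℕ) : ℤ) ((n : ℤ) - ((b + q * k : ℕ) : ℤ))) →
      ∃ x y k : ℕ, 1 ≤ x ∧ 1 ≤ y ∧ x + y = n ∧ x = b + q * k ∧ a < k ∧ k ≤ a + h ∧
        ∀ i ∈ J, (value (f i) (c i) x y).toNat.Prime)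

open Pool.Agent.Q236.RP Pool.Agent.Q236.MR Pool.Agent.Q236.CG

/-- the polynomial `f(x, n - x)` -/
noncomputable def onl (f : MvPolynomial (Fin 2) ℤ) (n : ℕ) : Polynomial ℤ :=
  MvPolynomial.aeval ![Polynomial.X, Polynomial.C (n : ℤ) - Polynomial.X] f

lemma onl_eval (f : MvPolynomial (Fin 2) ℤ) (n : ℕ) (x : ℤ) : (onl f n).eval x = MvPolynomial.eval ![x, (n : ℤ) - x] f := by
  unfold onl
  rw [MvPolynomial.aeval_def, ← Polynomial.coe_evalRingHom, MvPolynomial.hom_eval₂]
  have h1 : (Polynomial.evalRingHom x).comp (algebraMap ℤ (Polynomial ℤ)) = RingHom.id ℤ := RingHom.ext_int _ _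
  rw [h1]
  have h2 : (fun i => (Polynomial.evalRingHom x) ((![Polynomial.X, Polynomial.C (n : ℤ) - Polynomial.X] :
      Fin 2 → Polynomial ℤ) i)) = ![x, (n : ℤ) - x] := by
    funext i
    fin_cases i
    · simp
    · simp
  have h3 : ((Polynomial.evalRingHom x) : Polynomial ℤ → ℤ) ∘ (![Polynomial.X, Polynomial.C (n : ℤ) - Polynomial.X] :
      Fin 2 → Polynomial ℤ) = ![x, (n : ℤ) - x] := h2
  first
    | rw [h3]; rfl
    | rw [h2]; rfl

lemma onl_deg (f : MvPolynomial (Fin 2) ℤ) (n D : ℕ) (hf : f.totalDegree ≤ D) : (onl f n).natDegree ≤ D := by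
  unfold onl
  have h := MvPolynomial.aeval_natDegree_le (m := D) (n := 1) f hf ![Polynomial.X, Polynomial.C (n : ℤ) - Polynomial.X] (by
    intro i
    fin_cases i
    · simp
    · simp only [Fin.mk_one, Matrix.cons_val_one, Matrix.cons_val_fin_one]
      refine (Polynomial.natDegree_sub_le _ _).trans ?_
      simp)
  rwa [mul_one] at h

lemma pv_line {m d : ℕ} (f : Fin m → MvPolynomial (Fin 2) ℤ) (c : Fin m → Fin d → ℤ) (n k : ℕ) (i : Fin m) :
    pv (fun i => onl (f i) n) c k i = value (f i) (c i) (k : ℤ) ((n : ℤ) - (k : ℤ)) := by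
  unfold pv value
  simp only
  rw [onl_eval]

lemma arrays_eq {m d : ℕ} (Z : Fin m → Fin d → ℤ) (Y : Fin m → Fin d → ℕ) : Arrays Z Y = BA Z Y := rfl

lemma points_eq {m d : ℕ} (f : Fin m → MvPolynomial (Fin 2) ℤ) (c : Fin m → Fin d → ℤ) (J : Finset (Fin m))
    (n b q a h : ℕ) : primePoints f c J n b q a h = cntJ (fun i => onl (f i) n) c J b q a h := by
  unfold primePoints cntJ
  simp only [pv_line]

lemma omega_eq {m d : ℕ} (f : Fin m → MvPolynomial (Fin 2) ℤ) (c : Fin m → Fin d → ℤ) (J : Finset (Fin m))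
    (n b q p : ℕ) : omega f c J n b q p = omJ (fun i => onl (f i) n) c J b q p := by
  unfold omega omJ
  simp only [pv_line]

lemma singular_eq {m d : ℕ} (f : Fin m → MvPolynomial (Fin 2) ℤ) (c : Fin m → Fin d → ℤ) (J : Finset (Fin m))
    (n b q z : ℕ) : singular f c J n b q z = sgJ (fun i => onl (f i) n) c J b q z := by
  unfold singular sgJ
  simp only [omega_eq]
  rfl

lemma vals_box {m d : ℕ} (C E X : ℕ) (f : Fin m → MvPolynomial (Fin 2) ℤ) (Z : Fin m → Fin d → ℤ)
    (Y : Fin m → Fin d → ℕ) (h : Sizes C E X f Z Y) (hX : (0 : ℝ) < (X : ℝ) / Real.log X ^ C) :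
    ∀ n : ℕ, (n : ℝ) ≤ Real.log X ^ E → ∀ i, ∀ b ∈ Box (Z i) (Y i), ∀ k : ℕ, 1 ≤ k → k ≤ n - 1 → (k : ℝ) ≤ Real.log X ^ E →
      (X : ℝ) / Real.log X ^ C ≤ evm (fun k => (onl (f i) n).eval (k : ℤ)) 1 b k ∧
      (evm (fun k => (onl (f i) n).eval (k : ℤ)) 1 b k : ℝ) ≤ X * Real.log X ^ C := by
  have hY : ∀ i j, 1 ≤ Y i j := by
    intro i j
    have h1 := h.side i j
    have : (0 : ℝ) < Y i j := lt_of_lt_of_le hX h1
    exact_mod_cast this
  intro n hn i b hb k hk hkn _
  obtain ⟨c, hc, rfl⟩ : ∃ c ∈ Arrays Z Y, c i = b := by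
    refine ⟨fun l => if h : l = i then b else fun j => Z l j + 1, ?_, ?_⟩
    · rw [arrays_eq, mem_BA]
      intro l
      split_ifs with hl
      · rw [hl]
        exact hb
      · rw [mem_Box]
        intro j
        have : (1 : ℤ) ≤ Y l j := by exact_mod_cast hY l j
        exact ⟨by linarith, by linarith⟩
    · simp
  have h1 := h.values c hc i k (n - k) hk (by omega) (by
    have : k + (n - k) = n := by omega
    rw [this]
    exact hn)
  have e0 : ((n - k : ℕ) : ℤ) = (n : ℤ) - (k : ℤ) := by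
    rw [Nat.cast_sub (by omega)]
  rw [e0] at h1
  have e : evm (fun k => (onl (f i) n).eval (k : ℤ)) 1 (c i) k = value (f i) (c i) (k : ℤ) ((n : ℤ) - (k : ℤ)) := by
    unfold evm value
    simp only
    rw [one_mul, onl_eval]
  rw [e]
  exact h1

lemma sing_pos {m d : ℕ} (f : Fin m → MvPolynomial (Fin 2) ℤ) (c : Fin m → Fin d → ℤ) (J : Finset (Fin m))
    (n b q z : ℕ) (h : ∀ p : ℕ, p.Prime → p ≤ z → ∃ k : ℕ, ∀ i ∈ J,
      ¬ (p : ℤ) ∣ value (f i) (c i) ((b + q * k : ℕ) : ℤ) ((n : ℤ) - ((b + q * k : ℕ) : ℤ))) :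
    0 < singular f c J n b q z := by
  classical
  unfold singular
  apply Finset.prod_pos
  intro p hp
  rw [mem_filter, mem_Icc] at hp
  obtain ⟨⟨_, hpz⟩, hpp⟩ := hp
  have hp0 : (0 : ℝ) < p := by exact_mod_cast hpp.pos
  have hp1 : (1 : ℝ) < p := by exact_mod_cast hpp.one_lt
  obtain ⟨k, hk⟩ := h p hpp hpz
  have hlt : omega f c J n b q p < p := by
    rw [omega_eq]
    unfold omJ
    have h1 : ((range p).filter (fun k => ∃ i ∈ J, (p : ℤ) ∣ pv (fun i => onl (f i) n) c (b + q * k) i)) ⊂ range p := by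
      rw [Finset.ssubset_iff_of_subset (filter_subset _ _)]
      refine ⟨k % p, mem_range.2 (Nat.mod_lt _ hpp.pos), ?_⟩
      rw [mem_filter, not_and]
      rintro _ ⟨i, hi, hd⟩
      apply hk i hi
      rw [← pv_line]
      have hkm : b + q * (k % p) ≡ b + q * k [MOD p] := Nat.ModEq.add_left b (Nat.ModEq.mul_left q (Nat.mod_modEq k p))
      have h2 : ∀ j : ℕ, (p : ℤ) ∣ ((b + q * (k % p) : ℕ) : ℤ) ^ j - ((b + q * k : ℕ) : ℤ) ^ j := by
        intro j
        have h3 : (p : ℤ) ∣ ((b + q * (k % p) : ℕ) : ℤ) - ((b + q * k : ℕ) : ℤ) := Nat.modEq_iff_dvd.1 hkm.symm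
        exact h3.trans (sub_dvd_pow_sub_pow _ _ _)
      have h4 : (p : ℤ) ∣ pv (fun i => onl (f i) n) c (b + q * (k % p)) i - pv (fun i => onl (f i) n) c (b + q * k) i := by
        unfold pv
        have e1 : ∀ x y u v : ℤ, x + u - (y + v) = (x - y) + (u - v) := by intros; ring
        rw [e1]
        apply dvd_add
        · exact eval_mod _ p _ _ hkm
        · rw [← Finset.sum_sub_distrib]
          apply Finset.dvd_sum
          intro j _
          rw [← mul_sub]
          exact Dvd.dvd.mul_left (h2 _) _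
      have h5 := dvd_sub hd h4
      rwa [sub_sub_cancel] at h5
    have h6 := card_lt_card h1
    rwa [card_range] at h6
  apply div_pos
  · rw [sub_pos, div_lt_one hp0]
    exact_mod_cast hlt
  · apply pow_pos
    rw [sub_pos, div_lt_one hp0]
    exact hp1

open Classical in
/-- **Prime values on all the lines `x + y = n` at the same time, for almost all families.** -/
theorem result (N B E : ℕ) (η : ℝ) (hη : 0 < η) : ∃ d₀ : ℕ, ∀ C d : ℕ, d₀ ≤ d → ∃ A₀ : ℕ, ∀ (A D : ℕ) (ε : ℝ),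
    0 < ε → ∃ X₀ : ℕ, ∀ X, X₀ ≤ X → ∀ z : ℕ, Real.log X ^ A₀ ≤ z → (z : ℝ) ≤ Real.log X ^ A →
    ∀ m : ℕ, (m : ℝ) ≤ Real.log X ^ E →
    ∀ (f : Fin m → MvPolynomial (Fin 2) ℤ) (Z : Fin m → Fin d → ℤ) (Y : Fin m → Fin d → ℕ),
    (∀ i, (f i).totalDegree ≤ D) → Sizes C E X f Z Y →
    (((Arrays Z Y).filter (fun c => ¬ Regular N E η ε z X f c)).card : ℝ) ≤ (Arrays Z Y).card / Real.log X ^ B := by
  obtain ⟨d0, hd0⟩ := fam_main N B E η hη
  refine ⟨d0, ?_⟩
  intro C d hd
  obtain ⟨A0, hA0⟩ := hd0 C d hd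
  refine ⟨A0, ?_⟩
  intro A D ε hε
  obtain ⟨X0, hX0⟩ := eventually_atTop.1 ((hA0 A D (min ε (1 / 2)) (by positivity)).and ((ev_log_ge 1).and (ev_pow_log 1)))
  refine ⟨X0, ?_⟩
  intro X hX z hz1 hz2 m hm f Z Y hF hS
  obtain ⟨h1, hL, hP⟩ := hX0 X hX
  have hL0 : 0 < Real.log (X : ℝ) := by linarith
  have hXp : (0 : ℝ) < (X : ℝ) / Real.log X ^ C := by
    have : (0 : ℝ) < X := by
      rw [pow_one] at hP
      linarith
    positivity
  have h2 := h1 z hz1 hz2 m hm (fun n i => onl (f i) n) (fun n => n - 1) Z Y (fun n i => onl_deg (f i) n D (hF i)) hS.side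
    (vals_box C E X f Z Y hS hXp)
  rw [arrays_eq]
  refine le_trans ?_ h2
  have hsub : (BA Z Y).filter (fun c => ¬ Regular N E η ε z X f c) ⊆
      (BA Z Y).filter (fun c => ∃ J : Finset (Fin m), 1 ≤ J.card ∧ J.card ≤ N ∧ ∃ u b q a h : ℕ,
      (u : ℝ) ≤ Real.log X ^ E ∧ 1 ≤ q ∧ b + q * (a + h) ≤ u - 1 ∧
      ((b + q * (a + h) : ℕ) : ℝ) ≤ Real.log X ^ E ∧ Real.log X ^ ((J.card : ℝ) + η) ≤ h ∧
      ¬ |(cntJ (fun i => onl (f i) u) c J b q a h : ℝ) - sgJ (fun i => onl (f i) u) c J b q z * (h / Real.log X ^ J.card)| ≤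
        min ε (1 / 2) * (sgJ (fun i => onl (f i) u) c J b q z * (h / Real.log X ^ J.card))) := by
    intro c hc
    rw [mem_filter] at hc ⊢
    refine ⟨hc.1, ?_⟩
    by_contra hno
    push Not at hno
    apply hc.2
    intro n hn J hJ1 hJN b q a h hq hbn hh
    have hbq : ((b + q * (a + h) : ℕ) : ℝ) ≤ Real.log X ^ E := by
      refine le_trans ?_ hn
      exact_mod_cast hbn.le
    have h3 := hno J hJ1 hJN n b q a h hn hq (by omega) hbq hh
    rw [← points_eq, ← singular_eq] at h3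
    obtain ⟨G, hG⟩ : ∃ G, G = singular f c J n b q z * (h / Real.log X ^ J.card) := ⟨_, rfl⟩
    rw [← hG] at h3 ⊢
    have hG0 : 0 ≤ G := by
      by_contra hlt
      push Not at hlt
      have h4 : min ε (1 / 2) * G < 0 := mul_neg_of_pos_of_neg (by positivity) hlt
      linarith [abs_nonneg ((primePoints f c J n b q a h : ℝ) - G)]
    refine ⟨h3.trans (mul_le_mul_of_nonneg_right (min_le_left _ _) hG0), ?_⟩
    intro hadm
    have hs := sing_pos f c J n b q z hadm
    have hh0 : (0 : ℝ) < h := lt_of_lt_of_le (Real.rpow_pos_of_pos hL0 _) hh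
    have hGp : 0 < G := by rw [hG]; positivity
    have h5 : 0 < (primePoints f c J n b q a h : ℝ) := by
      have h6 := (abs_le.1 h3).1
      have h7 : min ε (1 / 2) * G ≤ 1 / 2 * G := mul_le_mul_of_nonneg_right (min_le_right _ _) hG0
      linarith
    have h8 : 0 < primePoints f c J n b q a h := by exact_mod_cast h5
    unfold primePoints at h8
    rw [card_pos] at h8
    obtain ⟨k, hk⟩ := h8
    rw [mem_filter, mem_Ioc] at hk
    obtain ⟨⟨hk1, hk2⟩, hk3⟩ := hk
    have h9 : q * k ≤ q * (a + h) := Nat.mul_le_mul_left q hk2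
    have h10 : k ≤ q * k := Nat.le_mul_of_pos_left _ (by omega)
    refine ⟨b + q * k, n - (b + q * k), k, by omega, by omega, by omega, rfl, hk1, hk2, ?_⟩
    intro i hi
    have e0 : ((n - (b + q * k) : ℕ) : ℤ) = (n : ℤ) - ((b + q * k : ℕ) : ℤ) := by
      rw [Nat.cast_sub (by omega)]
    rw [e0]
    exact hk3 i hi
  exact_mod_cast card_le_card hsub

end Pool.Agent.Results.MP_0da313_nt.EveryLineAlmostEveryFamily
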