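import Pool.Agent.Q197.FM.Line2

/-!
# MP_0da313_nt: the answer for random primes is yes, for all admissible families at once

Let `A` be a random set of natural numbers for which the events `n ∈ A` are independent, and let their
probabilities be at least `n ^ (-ε)`, for every `ε > 0` and all large `n` without prime factors
`≤ z(n)`; here `z` is a function with `z(n) ≤ n ^ ε` for every `ε > 0` and all large `n` (for instance
any power of `log n`). No other condition is imposed: `A` may consist of numbers without prime factors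
`≤ z(n)`, as in the model in which all local conditions are the same as for the primes.

Then almost surely the assertion of the question holds for `A` instead of the set of primes, for ALL
admissible families at the same time: for every admissible family `f_1, ..., f_m ∈ ℤ[x, y]` every large
`n` is `x + y` with `x, y ≥ 1` and all `|f_k(x, y)|` in `A`, and there are at least `n ^ (1 - ε)`
such `x`, for every `ε > 0`.

The hypothesis that the family is admissible is needed in the same way as for the primes: if `A`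
consists of the numbers without prime factors `≤ z(n)` only, a fixed prime divisor makes it impossible.
-/

set_option autoImplicit false

open Finset Polynomial Filter MeasureTheory ProbabilityTheory

namespace Pool.Agent.Results.MP_0da313_nt.RandomPrimesAllFamilies

/-- the value `f(x, y)` -/
noncomputable def val (f : MvPolynomial (Fin 2) ℤ) (x y : ℤ) : ℤ := MvPolynomial.eval ![x, y] f

/-- the polynomial `g(x) = f(x, n - x)` in `ℤ[x]` -/
noncomputable def onLine (f : MvPolynomial (Fin 2) ℤ) (n : ℕ) : ℤ[X] :=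
  MvPolynomial.aeval ![(X : ℤ[X]), C (n : ℤ) - X] f

/-- admissible families: for all large `n` the polynomials `f_k(x, n - x)` are irreducible in `ℤ[x]`
and no prime divides all values of their product -/
def Admissible {m : ℕ} (f : Fin m → MvPolynomial (Fin 2) ℤ) : Prop :=
  ∃ N₀ : ℕ, ∀ n : ℕ, N₀ ≤ n →
    (∀ k, Irreducible (onLine (f k) n)) ∧
    ∀ p : ℕ, p.Prime → ¬ ∀ x : ℤ, (p : ℤ) ∣ ∏ k, (onLine (f k) n).eval x

theorem result (Ω : Type) [MeasurableSpace Ω] (μ : Measure Ω) [IsProbabilityMeasure μ] (A : Ω → Set ℕ)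
    (z : ℕ → ℝ)
    (hmeas : ∀ n : ℕ, MeasurableSet {ω | n ∈ A ω})
    (hind : iIndepSet (fun n : ℕ => {ω | n ∈ A ω}) μ)
    (hz : ∀ ε : ℝ, 0 < ε → ∀ᶠ n : ℕ in atTop, z n ≤ (n : ℝ) ^ ε)
    (hP : ∀ ε : ℝ, 0 < ε → ∀ᶠ n : ℕ in atTop, (∀ q : ℕ, q.Prime → q ∣ n → z n < q) →
      (n : ℝ) ^ (-ε) ≤ μ.real {ω | n ∈ A ω}) :
    ∀ᵐ ω ∂μ, ∀ (m : ℕ) (f : Fin m → MvPolynomial (Fin 2) ℤ), Admissible f →
      (∃ N : ℕ, ∀ n : ℕ, N ≤ n → ∃ x y : ℕ, 0 < x ∧ 0 < y ∧ x + y = n ∧
        ∀ k, (val (f k) x y).natAbs ∈ A ω) ∧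
      ∀ ε : ℝ, 0 < ε → ∃ N : ℕ, ∀ n : ℕ, N ≤ n → (n : ℝ) ^ (1 - ε) ≤
        ({x : ℕ | 0 < x ∧ x < n ∧ ∀ k, (val (f k) x (n - x)).natAbs ∈ A ω} : Set ℕ).ncard := by
  filter_upwards [Pool.Agent.Q197.FM.all_families (μ := μ) (A := A) ⟨hmeas, hind⟩ hz hP] with ω h m f hf
  have h1 : ∀ ε : ℝ, 0 < ε → ∃ N : ℕ, ∀ n : ℕ, N ≤ n → (n : ℝ) ^ (1 - ε) ≤
        ({x : ℕ | 0 < x ∧ x < n ∧ ∀ k, (val (f k) x (n - x)).natAbs ∈ A ω} : Set ℕ).ncard :=
    fun ε hε => eventually_atTop.1 (h m f hf ε hε)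
  refine ⟨?_, h1⟩
  obtain ⟨N, hN⟩ := h1 1 one_pos
  refine ⟨N, fun n hn => ?_⟩
  have h2 := hN n hn
  rw [sub_self, Real.rpow_zero] at h2
  have h3 : 0 < ({x : ℕ | 0 < x ∧ x < n ∧ ∀ k, (val (f k) x (n - x)).natAbs ∈ A ω} : Set ℕ).ncard := by
    exact_mod_cast (lt_of_lt_of_le one_pos h2)
  obtain ⟨x, hx1, hx2, hx3⟩ := Set.nonempty_of_ncard_ne_zero h3.ne'
  refine ⟨x, n - x, hx1, by omega, by omega, fun k => ?_⟩
  have h4 := hx3 k
  rw [Nat.cast_sub hx2.le]
  exact h4

end Pool.Agent.Results.MP_0da313_nt.RandomPrimesAllFamilies
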