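import Pool.Agent.Q253.Thin.Poly

/-!
# A sparse set of integers which represents the prime values of `n ^ 2 + 1` and of ALL polynomials

Let `d ≥ 1`, `A` and any function `ω ≥ 0` which tends to infinity be given. There is a set `S` of positive integers with
at most `ω(i) i ^ (d + 1)` elements in `(2 ^ i, 2 ^ (i + 1)]` such that for all admissible polynomials `f` of degree `≤ d` with
coefficients up to `2 ^ (i A)`, and for ALL windows `(u, v] ⊆ (2 ^ i, 2 ^ (i + 1)]`, the number of the prime values `|f(n)|`,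
`n ∈ S ∩ (u, v]`, is the number of all prime values, `n ∈ (u, v]`, times `|S ∩ (2 ^ i, 2 ^ (i + 1)]| / 2 ^ i`, up to an
error which is `o(1)` times the expected size, uniformly in `f`; the same holds for the values without small prime
factors, whose number has the expected order of magnitude for every `f`.

Libraries: `Y151.HS.FLC` (fundamental lemma in residue classes), `Y79.HS.Den`, starting files.
-/

set_option autoImplicit false

namespace Pool.Agent.Results.MP_0da313_nt.SparseSetAllPolynomials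

open Finset Filter

/-- the value at `n` of the polynomial with the coefficients `c` -/
def val {d : ℕ} (c : Fin (d + 1) → ℤ) (n : ℕ) : ℤ := ∑ j, c j * (n : ℤ) ^ (j : ℕ)

/-- no prime divides all values -/
def Admissible {d : ℕ} (c : Fin (d + 1) → ℤ) : Prop := ∀ q : ℕ, q.Prime → ∃ n : ℕ, ¬ (q : ℤ) ∣ val c n

/-- `∏ (1 - ν(q) / q)` over the primes `q ≤ X`, where `ν(q)` is the number of the roots modulo `q` -/
noncomputable def dens {d : ℕ} (c : Fin (d + 1) → ℤ) (X : ℕ) : ℝ :=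
  ∏ q ∈ (Icc 1 X).filter Nat.Prime, (1 - (((range q).filter (fun a => (q : ℤ) ∣ val c a)).card : ℝ) / q)

open Classical in
/-- the `n` in `(u, v]` such that `|f(n)|` is a prime larger than `y` -/
noncomputable def PrimeValue {d : ℕ} (y : ℝ) (c : Fin (d + 1) → ℤ) (u v : ℕ) : Finset ℕ :=
  (Ioc u v).filter (fun n => (val c n).natAbs.Prime ∧ y < ((val c n).natAbs : ℝ))

open Classical in
/-- the `n` in `(u, v]` such that `f(n)` has no prime factor `≤ y` -/
noncomputable def RoughValue {d : ℕ} (y : ℝ) (c : Fin (d + 1) → ℤ) (u v : ℕ) : Finset ℕ :=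
  (Ioc u v).filter (fun n => ∀ q : ℕ, q.Prime → (q : ℤ) ∣ val c n → y < q)

open Classical in
/-- the part of `S` in `(2 ^ i, 2 ^ (i + 1)]` -/
noncomputable def block (S : Set ℕ) (i : ℕ) : Finset ℕ := (Ioc (2 ^ i) (2 ^ (i + 1))).filter (fun n => n ∈ S)

/-- the sampled count `|T ∩ W|` is `|T| |W| / 2 ^ i` up to the error `ε |T| dens` -/
def Faithful {d : ℕ} (ε : ℝ) (i : ℕ) (T W : Finset ℕ) (c : Fin (d + 1) → ℤ) : Prop :=
  |((T ∩ W).card : ℝ) - T.card * (W.card / 2 ^ i)| ≤ ε * (T.card * dens c (2 ^ i))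

lemma dens_eq {d : ℕ} (c : Fin (d + 1) → ℤ) (X : ℕ) :
    Pool.Agent.Y843.HS.VV (Pool.Agent.Q253.Thin.Zc c) 0 X = dens c X := by
  unfold Pool.Agent.Y843.HS.VV dens
  apply prod_congr _ (fun _ _ => rfl)
  ext p
  rw [Pool.Agent.Y843.HS.Pr_mem, mem_filter, mem_Icc]
  constructor
  · rintro ⟨h1, h2⟩
    exact ⟨⟨by omega, h1.2⟩, h2⟩
  · rintro ⟨h1, h2⟩
    exact ⟨⟨by omega, h1.2⟩, h2⟩

/-- the property of the block `T` at the scale `i` with the error `ε` -/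
def Good (d A t : ℕ) (ε : ℝ) (i : ℕ) (T : Finset ℕ) : Prop :=
  0 < T.card ∧ ∀ c : Fin (d + 1) → ℤ, Admissible c → (∀ j, |c j| ≤ (2 : ℤ) ^ (i * A)) →
    ∀ u v : ℕ, 2 ^ i ≤ u → u ≤ v → v ≤ 2 ^ (i + 1) →
      Faithful ε i T (PrimeValue (((2 ^ i : ℕ) : ℝ) ^ (1 / (t : ℝ))) c u v) c ∧
      Faithful ε i T (RoughValue (((2 ^ i : ℕ) : ℝ) ^ (1 / (t : ℝ))) c u v) c

lemma dens_nonneg {d : ℕ} {c : Fin (d + 1) → ℤ} (h : Admissible c) (X : ℕ) : 0 ≤ dens c X := by
  rw [← dens_eq]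
  exact Pool.Agent.Q253.Thin.VZ_nonneg (Pool.Agent.Q253.Thin.sysP c h) _ _

lemma Good.mono {d A t : ℕ} {ε ε' : ℝ} (h : ε ≤ ε') {i : ℕ} {T : Finset ℕ} (hT : Good d A t ε i T) :
    Good d A t ε' i T := by
  refine ⟨hT.1, fun c hc hcA u v h1 h2 h3 => ?_⟩
  obtain ⟨a1, a2⟩ := hT.2 c hc hcA u v h1 h2 h3
  have h4 := mul_le_mul_of_nonneg_right h (mul_nonneg (Nat.cast_nonneg T.card) (dens_nonneg hc (2 ^ i)))
  exact ⟨le_trans a1 h4, le_trans a2 h4⟩

/-- **A sparse set which represents the prime values of all polynomials.** Let `d ≥ 1`, `A`, and a function `ω ≥ 0`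
which tends to infinity be given. There are `t ≥ 1`, `κ > 0` and a set `S` of positive integers with at most
`ω(i) i ^ (d + 1)` elements in `(2 ^ i, 2 ^ (i + 1)]` for all `i` such that for all `ε, θ > 0` and all large `i`, for ALL
admissible polynomials `f` of degree `≤ d` with coefficients up to `2 ^ (i A)` and ALL windows `(u, v]` in
`(2 ^ i, 2 ^ (i + 1)]`: the number of the `n ∈ S ∩ (u, v]` such that `|f(n)|` is a prime (`> 2 ^ (i/t)`) is the number of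
all such `n ∈ (u, v]` times `|S ∩ (2 ^ i, 2 ^ (i + 1)]| / 2 ^ i` up to an error at most
`ε |S ∩ (2 ^ i, 2 ^ (i + 1)]| dens f (2 ^ i)`; the same holds for the `n` such that `f(n)` has no prime factor
`≤ 2 ^ (i/t)`; and the number of these `n ∈ S ∩ (u, v]` has at least the expected order if `v - u ≥ θ 2 ^ i`. -/
theorem result (d A : ℕ) (hd : 1 ≤ d) (ω : ℕ → ℝ) (hω0 : ∀ i, 0 ≤ ω i) (hω : Tendsto ω atTop atTop) :
    ∃ (t : ℕ) (κ : ℝ) (S : Set ℕ), 1 ≤ t ∧ 0 < κ ∧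
      (∀ i : ℕ, ((block S i).card : ℝ) ≤ ω i * i ^ (d + 1)) ∧
      (∀ ε θ : ℝ, 0 < ε → 0 < θ → ∃ i₀ : ℕ, ∀ i : ℕ, i₀ ≤ i → 0 < (block S i).card ∧
        ∀ c : Fin (d + 1) → ℤ, Admissible c → (∀ j, |c j| ≤ (2 : ℤ) ^ (i * A)) →
        ∀ u v : ℕ, 2 ^ i ≤ u → u ≤ v → v ≤ 2 ^ (i + 1) →
          Faithful ε i (block S i) (PrimeValue (((2 ^ i : ℕ) : ℝ) ^ (1 / (t : ℝ))) c u v) c ∧
          Faithful ε i (block S i) (RoughValue (((2 ^ i : ℕ) : ℝ) ^ (1 / (t : ℝ))) c u v) c ∧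
          (θ * 2 ^ i ≤ (v : ℝ) - u →
            κ * ((block S i).card * (((v : ℝ) - u) / 2 ^ i) * dens c (2 ^ i)) ≤
              ((block S i ∩ RoughValue (((2 ^ i : ℕ) : ℝ) ^ (1 / (t : ℝ))) c u v).card : ℝ))) := by
  classical
  obtain ⟨t, ht, c0, hc0, hlow⟩ := Pool.Agent.Q253.Thin.int_lower d hd
  have hblk := fun j : ℕ => Pool.Agent.Q253.Thin.blockP d A t hd ht (1 / ((j : ℝ) + 1)) (by positivity)
  -- one block for every error
  have hev : ∀ j : ℕ, ∀ᶠ i : ℕ in atTop, ∃ T : Finset ℕ, T ⊆ Ioc (2 ^ i) (2 ^ (i + 1)) ∧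
      (T.card : ℝ) ≤ ω i * i ^ (d + 1) ∧ Good d A t (1 / ((j : ℝ) + 1)) i T := by
    intro j
    obtain ⟨K, hK, X₀, h⟩ := hblk j
    have hl2 : 0 < Real.log 2 := Real.log_pos (by norm_num)
    have h1 : ∀ᶠ i : ℕ in atTop, 2 * K ≤ ω i := hω.eventually_ge_atTop _
    have h2 : ∀ᶠ i : ℕ in atTop, K * Real.log ((2 ^ i : ℕ) : ℝ) ^ (d + 1) ≤ ((2 ^ i : ℕ) : ℝ) := by
      have h3 := (isLittleO_log_rpow_rpow_atTop (s := 1) ((d + 1 : ℕ) : ℝ) (by norm_num)).def
        (show (0 : ℝ) < 1 / K by positivity)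
      have h4 : Tendsto (fun i : ℕ => ((2 ^ i : ℕ) : ℝ)) atTop atTop :=
        tendsto_natCast_atTop_atTop.comp (tendsto_pow_atTop_atTop_of_one_lt (by norm_num))
      filter_upwards [h4.eventually h3] with i g
      have hX0 : (0 : ℝ) < ((2 ^ i : ℕ) : ℝ) := by positivity
      have hl : 0 ≤ Real.log ((2 ^ i : ℕ) : ℝ) := Real.log_natCast_nonneg _
      rw [Real.rpow_natCast, Real.rpow_one, Real.norm_of_nonneg (by positivity), Real.norm_of_nonneg hX0.le,
        div_mul_eq_mul_div, one_mul, le_div_iff₀ hK] at g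
      linarith
    filter_upwards [h1, h2, eventually_ge_atTop (max X₀ 1)] with i g1 g2 g3
    have hi1 : X₀ ≤ 2 ^ i := ((le_max_left _ _).trans g3).trans Nat.lt_two_pow_self.le
    have hi2 : 1 ≤ i := (le_max_right _ _).trans g3
    have hlog : Real.log ((2 ^ i : ℕ) : ℝ) = i * Real.log 2 := by
      push_cast
      rw [Real.log_pow]
    have hir : (1 : ℝ) ≤ i := by exact_mod_cast hi2
    obtain ⟨S, hS, hS1, hS2, hS3⟩ := h (2 ^ i) hi1 _ le_rfl g2
    have hXX : 2 ^ i + 2 ^ i = 2 ^ (i + 1) := by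
      rw [pow_succ]
      ring
    have hm0 : 0 < K * Real.log ((2 ^ i : ℕ) : ℝ) ^ (d + 1) := by
      rw [hlog]
      positivity
    refine ⟨S, by rw [← hXX]; exact hS, ?_, ?_, ?_⟩
    · refine hS1.trans ?_
      have h5 : Real.log ((2 ^ i : ℕ) : ℝ) ^ (d + 1) ≤ (i : ℝ) ^ (d + 1) := by
        apply pow_le_pow_left₀ (Real.log_natCast_nonneg _)
        rw [hlog]
        have := Real.log_two_lt_d9
        nlinarith
      calc 2 * (K * Real.log ((2 ^ i : ℕ) : ℝ) ^ (d + 1)) = 2 * K * Real.log ((2 ^ i : ℕ) : ℝ) ^ (d + 1) := by ring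
        _ ≤ 2 * K * (i : ℝ) ^ (d + 1) := mul_le_mul_of_nonneg_left h5 (by positivity)
        _ ≤ ω i * (i : ℝ) ^ (d + 1) := mul_le_mul_of_nonneg_right g1 (by positivity)
    · have : (0 : ℝ) < S.card := by linarith
      exact_mod_cast this
    · intro c hc hcA u v h5 h6 h7
      obtain ⟨a1, a2⟩ := hS3 c hc (by
        intro j
        refine (hcA j).trans (le_of_eq ?_)
        rw [pow_mul]
        push_cast
        rfl) u v h5 h6 (by rw [hXX]; exact h7)
      have hX2 : ((2 ^ i : ℕ) : ℝ) = 2 ^ i := by push_cast; rfl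
      rw [dens_eq, hX2] at a1 a2
      constructor
      · unfold Faithful
        rw [← hX2]
        rw [← hX2] at a2
        exact a2
      · unfold Faithful
        rw [← hX2]
        rw [← hX2] at a1
        exact a1
  -- the diagonal choice
  have hchoice : ∀ i : ℕ, ∃ T : Finset ℕ, T ⊆ Ioc (2 ^ i) (2 ^ (i + 1)) ∧ (T.card : ℝ) ≤ ω i * i ^ (d + 1) ∧
      ∀ j : ℕ, j ≤ i → (∃ T' : Finset ℕ, T' ⊆ Ioc (2 ^ i) (2 ^ (i + 1)) ∧
        (T'.card : ℝ) ≤ ω i * i ^ (d + 1) ∧ Good d A t (1 / ((j : ℝ) + 1)) i T') → Good d A t (1 / ((j : ℝ) + 1)) i T := by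
    intro i
    set P : ℕ → Prop := fun j => ∃ T' : Finset ℕ, T' ⊆ Ioc (2 ^ i) (2 ^ (i + 1)) ∧
        (T'.card : ℝ) ≤ ω i * i ^ (d + 1) ∧ Good d A t (1 / ((j : ℝ) + 1)) i T' with hP
    by_cases h : ∃ j ≤ i, P j
    · obtain ⟨j, hj, hPj⟩ := h
      have h1 := Nat.findGreatest_spec hj hPj
      obtain ⟨T, hT1, hT2, hT3⟩ := h1
      refine ⟨T, hT1, hT2, fun j' hj' hPj' => hT3.mono ?_⟩
      have h2 : j' ≤ Nat.findGreatest P i := Nat.le_findGreatest hj' hPj'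
      apply one_div_le_one_div_of_le (by positivity)
      have : (j' : ℝ) ≤ (Nat.findGreatest P i : ℕ) := by exact_mod_cast h2
      linarith
    · refine ⟨∅, by simp, ?_, fun j hj hPj => absurd ⟨j, hj, hPj⟩ h⟩
      rw [card_empty, Nat.cast_zero]
      exact mul_nonneg (hω0 i) (by positivity)
  choose T hT1 hT2 hT3 using hchoice
  have hblock : ∀ i : ℕ, block {n | ∃ i, n ∈ T i} i = T i := by
    intro i
    ext n
    unfold block
    rw [mem_filter, mem_Ioc, Set.mem_ofPred_eq]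
    constructor
    · rintro ⟨⟨h9, h10⟩, ⟨j, hj⟩⟩
      have h11 := mem_Ioc.1 (hT1 j hj)
      have h12 : i = j := by
        by_contra hne
        rcases Nat.lt_or_gt_of_ne hne with h | h
        · have : 2 ^ (i + 1) ≤ 2 ^ j := Nat.pow_le_pow_right (by norm_num) (by omega)
          omega
        · have : 2 ^ (j + 1) ≤ 2 ^ i := Nat.pow_le_pow_right (by norm_num) (by omega)
          omega
      rw [h12]
      exact hj
    · intro h
      exact ⟨mem_Ioc.1 (hT1 i h), i, h⟩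
  refine ⟨t, c0 / 2, {n | ∃ i, n ∈ T i}, ht, by positivity, fun i => by rw [hblock]; exact hT2 i, ?_⟩
  intro ε θ hε hθ
  obtain ⟨j, hj⟩ := exists_nat_one_div_lt (show 0 < min ε (c0 * θ / 2) by positivity)
  obtain ⟨X₁, hX₁⟩ := hlow θ hθ
  obtain ⟨i₁, hi₁⟩ := eventually_atTop.1 (hev j)
  refine ⟨max (max i₁ j) X₁, ?_⟩
  intro i hi
  have hi1 : i₁ ≤ i := (le_max_left _ _).trans ((le_max_left _ _).trans hi)
  have hi2 : j ≤ i := (le_max_right _ _).trans ((le_max_left _ _).trans hi)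
  have hi3 : X₁ ≤ 2 ^ i := ((le_max_right _ _).trans hi).trans Nat.lt_two_pow_self.le
  have hG := hT3 i j hi2 (hi₁ i hi1)
  rw [hblock]
  refine ⟨hG.1, ?_⟩
  intro c hc hcA u v hu huv hv
  have hdn := dens_nonneg hc (2 ^ i)
  obtain ⟨a1, a2⟩ := (hG.mono (hj.le.trans (min_le_left _ _))).2 c hc hcA u v hu huv hv
  refine ⟨a1, a2, ?_⟩
  intro hθuv
  obtain ⟨_, a3⟩ := (hG.mono (hj.le.trans (min_le_right _ _))).2 c hc hcA u v hu huv hv
  have hX2 : ((2 ^ i : ℕ) : ℝ) = 2 ^ i := by push_cast; rfl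
  have h5 := hX₁ (2 ^ i) hi3 (Pool.Agent.Q253.Thin.Zc c) (Pool.Agent.Q253.Thin.sysP c hc) u v (by rw [hX2]; exact hθuv)
  rw [dens_eq, ← Pool.Agent.Q253.Thin.Ro_eq] at h5
  have h6 : Pool.Agent.Q253.Thin.Ro t (2 ^ i) c u v = RoughValue (((2 ^ i : ℕ) : ℝ) ^ (1 / (t : ℝ))) c u v := rfl
  rw [h6] at h5
  unfold Faithful at a3
  have h7 := (abs_le.1 a3).1
  have hp : (0 : ℝ) < 2 ^ i := by positivity
  set w : ℝ := ((RoughValue (((2 ^ i : ℕ) : ℝ) ^ (1 / (t : ℝ))) c u v).card : ℝ) with hw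
  set τ : ℝ := ((T i).card : ℝ) with hτ
  have hτ0 : 0 ≤ τ := Nat.cast_nonneg _
  have h8 : τ * (c0 * (((v : ℝ) - u) / 2 ^ i * dens c (2 ^ i))) ≤ τ * (w / 2 ^ i) := by
    apply mul_le_mul_of_nonneg_left _ hτ0
    rw [le_div_iff₀ hp]
    refine le_trans (le_of_eq ?_) h5
    field_simp
  have h9 : c0 * θ / 2 * (τ * dens c (2 ^ i)) ≤ c0 / 2 * (τ * (((v : ℝ) - u) / 2 ^ i) * dens c (2 ^ i)) := by
    have h10 : θ ≤ ((v : ℝ) - u) / 2 ^ i := by
      rw [le_div_iff₀ hp]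
      exact hθuv
    have h11 := mul_le_mul_of_nonneg_right h10 (show 0 ≤ c0 / 2 * (τ * dens c (2 ^ i)) from
      mul_nonneg (by positivity) (mul_nonneg hτ0 hdn))
    refine le_trans (le_of_eq ?_) (h11.trans (le_of_eq ?_))
    · ring
    · ring
  have h12 : τ * (c0 * (((v : ℝ) - u) / 2 ^ i * dens c (2 ^ i))) = c0 * (τ * (((v : ℝ) - u) / 2 ^ i) * dens c (2 ^ i)) := by
    ring
  rw [h12] at h8
  linarith

end Pool.Agent.Results.MP_0da313_nt.SparseSetAllPolynomials
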